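import Pool.Agent.Lib_helper52.EPS.Defs

set_option autoImplicit false

namespace Pool.Agent.EPS

open MeasureTheory Set Filter Topology

variable {G : Type*} [MeasureSpace G] [TopologicalSpace G] [AddCommGroup G]
  [IsTopologicalAddGroup G] [BorelSpace G] [SecondCountableTopology G] [LocallyCompactSpace G]
  [T2Space G] [(volume : Measure G).IsAddHaarMeasure]
variable {H : Type*} [MeasureSpace H] [TopologicalSpace H] [AddCommGroup H]
  [IsTopologicalAddGroup H] [BorelSpace H] [SecondCountableTopology H] [LocallyCompactSpace H]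
  [T2Space H] [(volume : Measure H).IsAddHaarMeasure]

omit [IsTopologicalAddGroup G] [SecondCountableTopology G] [LocallyCompactSpace G] [T2Space G]
  [(volume : Measure G).IsAddHaarMeasure] [AddCommGroup G]
  [IsTopologicalAddGroup H] [SecondCountableTopology H] [LocallyCompactSpace H]
  [T2Space H] [(volume : Measure H).IsAddHaarMeasure] [AddCommGroup H] in
theorem d1_int (e : G ≃ₜ H) (hm : MeasurePreserving e volume volume) (φ : H → ℝ) :
    ∫ x, φ (e x) = ∫ y, φ y :=
  hm.integral_comp e.measurableEmbedding φ

omit [IsTopologicalAddGroup G] [SecondCountableTopology G] [LocallyCompactSpace G] [T2Space G]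
  [(volume : Measure G).IsAddHaarMeasure] [AddCommGroup G]
  [IsTopologicalAddGroup H] [SecondCountableTopology H] [LocallyCompactSpace H]
  [T2Space H] [(volume : Measure H).IsAddHaarMeasure] [AddCommGroup H] in
theorem d1_bdc (e : G ≃ₜ H) {u : H → ℝ} (hu : Bdc u) : Bdc (fun x => u (e x)) := by
  obtain ⟨M, hM⟩ := hu.bd
  obtain ⟨K, hK, hK0⟩ := hu.supp
  refine ⟨hu.meas.comp e.continuous.measurable, fun x => hu.nn _, ⟨M, fun x => hM _⟩,
    ⟨e.symm '' K, hK.image e.symm.continuous, fun x hx => hK0 _ fun hmem => hx ?_⟩⟩
  exact ⟨e x, hmem, e.symm_apply_apply x⟩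

omit [IsTopologicalAddGroup G] [SecondCountableTopology G] [LocallyCompactSpace G] [T2Space G]
  [(volume : Measure G).IsAddHaarMeasure] [AddCommGroup G]
  [IsTopologicalAddGroup H] [SecondCountableTopology H] [LocallyCompactSpace H]
  [T2Space H] [(volume : Measure H).IsAddHaarMeasure] [AddCommGroup H] in
theorem d1_KK (e : G ≃ₜ H) (hm : MeasurePreserving e volume volume) (u : H → ℝ) :
    KK (fun x => u (e x)) = KK u := by
  unfold KK
  rw [d1_int e hm (fun y => Real.negMulLog (u y)), d1_int e hm u]

omit [IsTopologicalAddGroup G] [SecondCountableTopology G] [LocallyCompactSpace G] [T2Space G]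
  [(volume : Measure G).IsAddHaarMeasure]
  [IsTopologicalAddGroup H] [SecondCountableTopology H] [LocallyCompactSpace H]
  [T2Space H] [(volume : Measure H).IsAddHaarMeasure] in
theorem d1_cv (e : G ≃ₜ H) (he : ∀ x y, e (x + y) = e x + e y)
    (hm : MeasurePreserving e volume volume) (u v : H → ℝ) :
    cv (fun x => u (e x)) (fun x => v (e x)) = fun t => cv u v (e t) := by
  have hsub : ∀ t x, e (t - x) = e t - e x := by
    intro t x
    have := he (t - x) x
    rw [sub_add_cancel] at this
    rw [this, add_sub_cancel_right]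
  funext t
  unfold cv
  simp only [hsub]
  exact d1_int e hm (fun y => u y * v (e t - y))

/-- transport by an additive homeomorphism which preserves the measure -/
theorem EP_equiv (n : ℝ) (e : G ≃ₜ H) (he : ∀ x y, e (x + y) = e x + e y)
    (hm : MeasurePreserving e volume volume) (h : EP G n) : EP H n := by
  intro u v hu hv l hl0 hl1
  have key := h (fun x => u (e x)) (fun x => v (e x)) (d1_bdc e hu) (d1_bdc e hv) l hl0 hl1
  rw [d1_cv e he hm u v, d1_KK e hm (cv u v), d1_KK e hm u, d1_KK e hm v, d1_int e hm u,
    d1_int e hm v] at key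
  exact key

end Pool.Agent.EPS
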