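import Pool.Agent.Lib_helper52.EPS.Defs
import Pool.Agent.Lib_helper89.EPS.A0
import Pool.Agent.Lib_helper87.EPS.RO
set_option autoImplicit false

namespace Pool.Agent.EPS

open MeasureTheory Set Filter Topology

/-- rotation of a two-dimensional Gaussian integral, own copy -/
theorem a7_rot (c s : ℝ) (h : c ^ 2 + s ^ 2 = 1) (F : ℝ × ℝ → ℝ)
    (hF : Integrable (fun p : ℝ × ℝ => F p * (ga p.1 * ga p.2))) :
    Integrable (fun p : ℝ × ℝ => F (c * p.1 - s * p.2, s * p.1 + c * p.2) * (ga p.1 * ga p.2)) ∧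
      ∫ p : ℝ × ℝ, F (c * p.1 - s * p.2, s * p.1 + c * p.2) * (ga p.1 * ga p.2) =
        ∫ p : ℝ × ℝ, F p * (ga p.1 * ga p.2) := by
  obtain ⟨e, he, hmp⟩ := rot_mp c s h
  have hfun : (fun p : ℝ × ℝ => F (c * p.1 - s * p.2, s * p.1 + c * p.2) * (ga p.1 * ga p.2)) =
      (fun q : ℝ × ℝ => F q * (ga q.1 * ga q.2)) ∘ e := by
    funext p
    simp only [Function.comp_apply, he]
    rw [ga_rot c s h]
  refine ⟨?_, ?_⟩
  · rw [hfun]
    exact (hmp.integrable_comp_emb e.measurableEmbedding).mpr hF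
  · rw [hfun]
    exact hmp.integral_comp' (fun q : ℝ × ℝ => F q * (ga q.1 * ga q.2))

theorem a7_fst (F : ℝ → ℝ) (hF : Integrable (fun z => F z * ga z)) :
    Integrable (fun p : ℝ × ℝ => F p.1 * (ga p.1 * ga p.2)) ∧
      ∫ p : ℝ × ℝ, F p.1 * (ga p.1 * ga p.2) = ∫ z, F z * ga z := by
  have hfun : (fun p : ℝ × ℝ => F p.1 * (ga p.1 * ga p.2)) =
      fun p : ℝ × ℝ => (F p.1 * ga p.1) * ga p.2 := by
    funext p; ring
  rw [hfun]
  refine ⟨?_, ?_⟩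
  · exact hF.mul_prod ga_int.1
  · have := integral_prod_mul (μ := (volume : Measure ℝ)) (ν := (volume : Measure ℝ))
      (fun z : ℝ => F z * ga z) ga
    rw [Measure.volume_eq_prod, this, ga_int.2, mul_one]

theorem a7_snd (F : ℝ → ℝ) (hF : Integrable (fun z => F z * ga z)) :
    Integrable (fun p : ℝ × ℝ => F p.2 * (ga p.1 * ga p.2)) ∧
      ∫ p : ℝ × ℝ, F p.2 * (ga p.1 * ga p.2) = ∫ z, F z * ga z := by
  have hfun : (fun p : ℝ × ℝ => F p.2 * (ga p.1 * ga p.2)) =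
      fun p : ℝ × ℝ => ga p.1 * (F p.2 * ga p.2) := by
    funext p; ring
  rw [hfun]
  refine ⟨?_, ?_⟩
  · exact ga_int.1.mul_prod hF
  · have := integral_prod_mul (μ := (volume : Measure ℝ)) (ν := (volume : Measure ℝ))
      ga (fun z : ℝ => F z * ga z)
    rw [Measure.volume_eq_prod, this, ga_int.2, one_mul]

/-- marginals of the rotated Gaussian -/
theorem gauss_marg (c s : ℝ) (h : c ^ 2 + s ^ 2 = 1) (F : ℝ → ℝ) (hF : Integrable (fun z => F z * ga z)) :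
    (Integrable (fun p : ℝ × ℝ => F (c * p.1 - s * p.2) * (ga p.1 * ga p.2)) ∧
      ∫ p : ℝ × ℝ, F (c * p.1 - s * p.2) * (ga p.1 * ga p.2) = ∫ z, F z * ga z) ∧
    (Integrable (fun p : ℝ × ℝ => F (s * p.1 + c * p.2) * (ga p.1 * ga p.2)) ∧
      ∫ p : ℝ × ℝ, F (s * p.1 + c * p.2) * (ga p.1 * ga p.2) = ∫ z, F z * ga z) := by
  obtain ⟨i1, e1⟩ := a7_fst F hF
  obtain ⟨i2, e2⟩ := a7_snd F hF
  obtain ⟨j1, k1⟩ := a7_rot c s h (fun q => F q.1) i1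
  obtain ⟨j2, k2⟩ := a7_rot c s h (fun q => F q.2) i2
  exact ⟨⟨j1, k1.trans e1⟩, ⟨j2, k2.trans e2⟩⟩

/-- rotation of a two-dimensional Gaussian integral -/
theorem gauss_rot (c s : ℝ) (h : c ^ 2 + s ^ 2 = 1) (F : ℝ × ℝ → ℝ)
    (hF : Integrable (fun p : ℝ × ℝ => F p * (ga p.1 * ga p.2))) :
    Integrable (fun p : ℝ × ℝ => F (c * p.1 - s * p.2, s * p.1 + c * p.2) * (ga p.1 * ga p.2)) ∧
      ∫ p : ℝ × ℝ, F (c * p.1 - s * p.2, s * p.1 + c * p.2) * (ga p.1 * ga p.2) =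
        ∫ p : ℝ × ℝ, F p * (ga p.1 * ga p.2) := by
  exact a7_rot c s h F hF

end Pool.Agent.EPS
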